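import Pool.Agent.W420.NS.Stm

/-!
# Project NS: the cut tables (parts CUT1, CUTR, CUTJ, CUTC)
-/

set_option autoImplicit false

namespace Pool.Agent.W412.NS

open Pool.Agent.W420.NS

theorem ord_map {α β : Type} (f : α → β) (σ : List ℕ) (l : List α) :
    ord σ (l.map f) = (ord σ l).map f := by
  unfold ord
  rw [List.map_filterMap]
  congr 1
  funext i
  simp

theorem cut1 : S_CUT1 := by
  intro X
  rcases hX : X () with _ | _
  · refine ⟨⟨[false, false, false], 0, 1, 0⟩, by simp, ?_, ?_, ?_, ?_⟩
    · simp [one, hX]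
    · have : Fintype.card {x // X x = true} = 0 := by
        rw [Fintype.card_eq_zero_iff]
        refine ⟨fun x => ?_⟩
        rcases x with ⟨x, hx⟩
        have : x = () := rfl
        subst this
        rw [hX] at hx
        exact Bool.noConfusion hx
      simp [sz, this]
    · have : Fintype.card {x // (fun x => !X x) x = true} = 1 := by
        rw [Fintype.card_eq_one_iff]
        refine ⟨⟨(), by simp [hX]⟩, fun y => ?_⟩
        exact Subtype.ext rfl
      simp only [sz, this]
      rfl
    · exact Nat.zero_le _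
  · refine ⟨⟨[true, true, true], 1, 0, 0⟩, by simp, ?_, ?_, ?_, ?_⟩
    · simp [one, hX]
    · have : Fintype.card {x // X x = true} = 1 := by
        rw [Fintype.card_eq_one_iff]
        refine ⟨⟨(), hX⟩, fun y => ?_⟩
        exact Subtype.ext rfl
      simp only [sz, this]
      rfl
    · have : Fintype.card {x // (fun x => !X x) x = true} = 0 := by
        rw [Fintype.card_eq_zero_iff]
        refine ⟨fun x => ?_⟩
        rcases x with ⟨x, hx⟩
        have : x = () := rfl
        subst this
        simp [hX] at hx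
      simp only [sz, this]
      rfl
    · exact Nat.zero_le _

theorem cutr : S_CUTR := by
  intro A σ L h X
  obtain ⟨e, he, h1, h2, h3, h4⟩ := h X
  refine ⟨⟨ord σ e.pat, e.a, e.b, e.cut⟩, ?_, ?_, h2, h3, h4⟩
  · exact List.mem_map.2 ⟨e, he, rfl⟩
  · show ord σ e.pat = (ord σ A.D).map _
    rw [h1, ord_map]
    rfl

theorem sz_sum (A B : Pole) (s : ℕ) (X : (A.join B s).V → Bool) :
    sz X = min 2 (sz (fun x => X (Sum.inl x)) + sz (fun x => X (Sum.inr x))) := by
  have h : Fintype.card {x // X x = true} =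
      Fintype.card {x : A.V // X (Sum.inl x) = true} +
        Fintype.card {x : B.V // X (Sum.inr x) = true} := by
    rw [← Fintype.card_sum]
    apply Fintype.card_congr
    exact Equiv.subtypeSum
  unfold sz
  rw [h]
  generalize Fintype.card {x : A.V // X (Sum.inl x) = true} = p
  generalize Fintype.card {x : B.V // X (Sum.inr x) = true} = q
  show min 2 (p + q) = min 2 (min 2 _ + min 2 _)
  omega

theorem cutN_join (A B : Pole) (s : ℕ) (X : (A.join B s).V → Bool) :
    cutN (A.join B s) X = cutN A (fun x => X (Sum.inl x)) + cutN B (fun x => X (Sum.inr x)) +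
      dif s (A.D.map fun d => X (Sum.inl d.1)) (B.D.map fun d => X (Sum.inr d.1)) := by
  unfold cutN Pole.join newE dif
  simp only [List.filter_append, List.length_append, List.filter_map, List.length_map]
  rw [← List.map_take, ← List.map_take, List.zip_map, List.zip_map, List.filter_map, List.filter_map,
    List.length_map, List.length_map]
  rw [Nat.add_assoc]
  rfl

theorem cutj : S_CUTJ := by
  intro A B s LA LB L hsA hsB hA hB hc X
  obtain ⟨x, hx, x1, x2, x3, x4⟩ := hA (fun v => X (Sum.inl v))
  obtain ⟨y, hy, y1, y2, y3, y4⟩ := hB (fun v => X (Sum.inr v))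
  unfold chkCut at hc
  rw [List.all_eq_true] at hc
  have h1 := hc x hx
  rw [List.all_eq_true] at h1
  have h2 := h1 y hy
  rw [List.any_eq_true] at h2
  obtain ⟨z, hz, h3⟩ := h2
  simp only [Bool.and_eq_true, beq_iff_eq, Nat.beq_eq_true_eq, Nat.ble_eq] at h3
  obtain ⟨z1, z2, z3, z4⟩ := h3
  replace z2 := Nat.eq_of_beq_eq_true z2
  replace z3 := Nat.eq_of_beq_eq_true z3
  refine ⟨z, hz, ?_, ?_, ?_, ?_⟩
  · rw [z1, x1, y1]
    show _ = ((A.D.drop s).map (lmap Sum.inl) ++ (B.D.drop s).map (lmap Sum.inr)).map _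
    rw [List.map_append, List.map_map, List.map_map, List.map_drop, List.map_drop]
    rfl
  · rw [z2, sz_sum, x2, y2]
  · rw [z3, sz_sum, x3, y3]
  · refine le_trans z4 ?_
    rw [cutN_join, x1, y1]
    omega

theorem cutc : S_CUTC := by
  intro A B s LA LB hsA hsB hA hB hc X h1 h2
  obtain ⟨x, hx, x1, x2, x3, x4⟩ := hA (fun v => X (Sum.inl v))
  obtain ⟨y, hy, y1, y2, y3, y4⟩ := hB (fun v => X (Sum.inr v))
  unfold chkCutC at hc
  rw [List.all_eq_true] at hc
  have h3 := hc x hx
  rw [List.all_eq_true] at h3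
  have h4 := h3 y hy
  simp only [Bool.or_eq_true, Bool.and_eq_true, Bool.not_eq_true', Nat.ble_eq,
    Bool.and_eq_false_iff, Bool.eq_false_iff, ne_eq, not_le] at h4
  rw [sz_sum] at h1 h2
  rw [sz_sum, sz_sum A B s (fun x => !X x)]
  rw [cutN_join]
  rw [← x1, ← y1]
  rw [← x2, ← y2] at h1 ⊢
  rw [← x3, ← y3] at h2 ⊢
  omega

end Pool.Agent.W412.NS
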